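import Pool.Agent.R550.LC.Final

/-!
# The locating-dominating coalition number: NP-hardness for eight parts
-/

namespace Pool.Agent.Results.MP_722fe9_lc.EightCoalitionHard

open Pool.Agent.NPC Pool.Agent.R550.LC Pool.Agent.R550.GB

/-- (1) `LDC_8` is NP-hard: every language `L` in `NP` has a polynomial-time computable map `f` to
connected graphs such that `x ∈ L` iff `C_L(f x) ≥ 8`. (2) Hence LDC is NP-hard. (3) If some
polynomial-time algorithm decides `C_L(G) ≥ 8` for connected graphs `G`, then `P = NP`. -/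
theorem result :
    (∀ L : Set (List Bool), InNP L → ∃ f : List Bool → List (List ℕ),
      PolyTime (fun x => bits (f x)) ∧ ∀ x, (graph (f x)).Connected ∧
        (x ∈ L ↔ AtLeast (graph (f x)) 8)) ∧
    (∀ L : Set (List Bool), InNP L → ∃ f : List Bool → List (List ℕ) × ℕ,
      PolyTime (fun x => bits (f x)) ∧ ∀ x, (graph (f x).1).Connected ∧
        (x ∈ L ↔ AtLeast (graph (f x).1) (f x).2)) ∧
    ((∃ F : List Bool → List Bool, PolyTime F ∧ ∀ A : List (List ℕ), (graph A).Connected →
        (F (bits A) = [true] ↔ AtLeast (graph A) 8)) →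
      ∀ L : Set (List Bool), InNP L → InP L) := by
  refine ⟨fun L hL => ?_, fun L hL => ?_, ?_⟩
  · obtain ⟨f, hf, hpr, hfL⟩ := hard L hL
    exact ⟨f, PC.toPolyTime hf, fun x => ⟨hpr x, hfL x⟩⟩
  · have h2 : HardPr (fun A : List (List ℕ) × ℕ => (graph A.1).Connected)
        (fun A => AtLeast (graph A.1) A.2) :=
      hard.trans (f := fun A => (A, 8)) (NPC.Poly.pair NPC.Poly.id (NPC.Poly.const 8))
        (fun _ h => h) (fun _ _ => Iff.rfl)
    obtain ⟨f, hf, hpr, hfL⟩ := h2 L hL
    exact ⟨f, PC.toPolyTime hf, fun x => ⟨hpr x, hfL x⟩⟩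
  · rintro ⟨F, hF, h⟩
    refine hard.collapse (d := fun x => decide (F (bits x) = [true])) ?_ ?_
    · exact NPC.Poly.decide_eq ((Pool.Agent.H622R2.poly_of_polyTime hF).comp
        R671.poly_bits) (NPC.Poly.const [true])
    · intro A hA
      rw [decide_eq_true_eq]
      exact (h A hA).symm

end Pool.Agent.Results.MP_722fe9_lc.EightCoalitionHard
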