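import Pool.Agent.R158.LDC.Red

/-!
# The locating-dominating coalition number is NP-hard, already for seven parts

A partition with at least seven parts has two coalitions without a common part, because otherwise
all coalitions share one part `C`; a small set of vertices which is met by every
locating-dominating set and is disjoint from `C` has to meet all the other parts, but in the graph
constructed all such minimal sets have at most five elements.  So there are two disjoint
locating-dominating sets, and these give a not-all-equal assignment: a variable is a vertex with a
pendant neighbour, and a clause is a pair of pairs of twins whose neighbourhoods differ by the
three variables.  Conversely an extra gadget allows to split one of two disjoint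
locating-dominating sets into five parts.
-/

namespace Pool.Agent.Results.MP_722fe9_lc.SevenPartsNPHard

open Pool.Agent.NPC Pool.Agent.R158.LDC

/-- It is `NP`-hard to decide whether a connected graph has an LDC-partition with at least seven
parts; in particular the problem LDC is `NP`-hard. -/
theorem result : NPHardP (LDCk 7) ∧ NPHardP LDC :=
  ⟨HardI.toNPHardP hardPr.toHardI, HardI.toNPHardP hardPr2.toHardI⟩

end Pool.Agent.Results.MP_722fe9_lc.SevenPartsNPHard
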